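import Pool.Agent.Helper34.Dg.Base

set_option autoImplicit false
set_option linter.unusedVariables false

namespace Pool.Agent.Helper34.Da

open MeasureTheory Filter Topology
open Pool.Agent.Helper34.Dg (T mu e e_cont e_norm e_nat e_add int_e fc_def parseval)

/-- absolutely convergent on the disc -/
def Gr (a : ℕ → ℂ) : Prop := ∀ ρ : ℝ, 0 ≤ ρ → ρ < 1 → Summable fun n => ‖a n‖ * ρ ^ n

/-- the function of a sequence of coefficients -/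
noncomputable def ser (a : ℕ → ℂ) (z : ℂ) : ℂ := ∑' n, a n * z ^ n

/-- Cauchy product -/
noncomputable def conv (a b : ℕ → ℂ) (n : ℕ) : ℂ :=
  ∑ p ∈ Finset.HasAntidiagonal.antidiagonal n, a p.1 * b p.2

/-- dilation -/
noncomputable def dil (r : ℝ) (a : ℕ → ℂ) (n : ℕ) : ℂ := a n * (r : ℂ) ^ n

noncomputable def Nn (a : ℕ → ℂ) (n : ℕ) : ℂ := (n : ℂ) * a n

noncomputable def Dd (a : ℕ → ℂ) (n : ℕ) : ℂ := ((n : ℂ) + 1) * a n

/-- the square of the norm on the circle of radius `ρ` -/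
noncomputable def N2 (ρ : ℝ) (a : ℕ → ℂ) : ℝ := ∑' n, ‖a n‖ ^ 2 * ρ ^ (2 * n)

theorem Gr.summ {a : ℕ → ℂ} (ha : Gr a) {z : ℂ} (hz : ‖z‖ < 1) : Summable fun n => ‖a n * z ^ n‖ := by
  have := ha ‖z‖ (norm_nonneg _) hz
  simpa [norm_mul, norm_pow] using this

theorem Gr.hasSum {a : ℕ → ℂ} (ha : Gr a) {z : ℂ} (hz : ‖z‖ < 1) :
    HasSum (fun n => a n * z ^ n) (ser a z) := (ha.summ hz).of_norm.hasSum

theorem Gr.mono {a b : ℕ → ℂ} (ha : Gr a) (h : ∀ n, ‖b n‖ ≤ ‖a n‖) : Gr b := by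
  intro ρ h0 h1
  refine Summable.of_nonneg_of_le (fun n => by positivity) (fun n => ?_) (ha ρ h0 h1)
  exact mul_le_mul_of_nonneg_right (h n) (by positivity)

theorem Gr.dil {a : ℕ → ℂ} (ha : Gr a) {r : ℝ} (h0 : 0 ≤ r) (h1 : r ≤ 1) : Gr (dil r a) := by
  apply ha.mono
  intro n
  rw [Da.dil, norm_mul, norm_pow, Complex.norm_real, Real.norm_eq_abs, abs_of_nonneg h0]
  have : r ^ n ≤ 1 := pow_le_one₀ h0 h1
  have := norm_nonneg (a n)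
  nlinarith

theorem Gr.sub {a b : ℕ → ℂ} (ha : Gr a) (hb : Gr b) : Gr (a - b) := by
  intro ρ h0 h1
  refine Summable.of_nonneg_of_le (fun n => by positivity) (fun n => ?_)
    ((ha ρ h0 h1).add (hb ρ h0 h1))
  rw [← add_mul]
  exact mul_le_mul_of_nonneg_right (norm_sub_le _ _) (by positivity)

theorem Gr.poly {a : ℕ → ℂ} (ha : Gr a) {b : ℕ → ℂ} (K : ℕ) (h : ∀ n, ‖b n‖ ≤ ((n : ℝ) + 1) ^ K * ‖a n‖) :
    Gr b := by
  intro ρ h0 h1
  obtain ⟨ρ', h2, h3⟩ := exists_between h1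
  have hρ' : 0 < ρ' := lt_of_le_of_lt h0 h2
  have hq0 : 0 ≤ ρ / ρ' := by positivity
  have hq1 : ρ / ρ' < 1 := (div_lt_one hρ').mpr h2
  have h4 : Tendsto (fun n : ℕ => ((n : ℝ) + 1) ^ K * (ρ / ρ') ^ n) atTop (𝓝 0) := by
    by_cases hq : ρ / ρ' = 0
    · rw [hq]
      apply tendsto_const_nhds.congr'
      filter_upwards [eventually_gt_atTop 0] with n hn
      rw [zero_pow hn.ne', mul_zero]
    have h5 := (tendsto_pow_const_mul_const_pow_of_lt_one K hq0 hq1).comp (tendsto_add_atTop_nat 1)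
    have h6 := h5.mul_const (ρ / ρ')⁻¹
    rw [zero_mul] at h6
    have hρne : ρ ≠ 0 := by
      rintro rfl
      simp at hq
    refine h6.congr fun n => ?_
    simp only [Function.comp_apply]
    push_cast
    rw [pow_succ]
    field_simp
  obtain ⟨B, hB⟩ := h4.bddAbove_range
  have hB' : ∀ n : ℕ, ((n : ℝ) + 1) ^ K * (ρ / ρ') ^ n ≤ B := fun n => hB ⟨n, rfl⟩
  refine Summable.of_nonneg_of_le (fun n => by positivity) (fun n => ?_) ((ha ρ' hρ'.le h3).mul_left B)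
  have h5 : ρ ^ n = (ρ / ρ') ^ n * ρ' ^ n := by
    rw [← mul_pow, div_mul_cancel₀ _ hρ'.ne']
  calc ‖b n‖ * ρ ^ n ≤ (((n : ℝ) + 1) ^ K * ‖a n‖) * ρ ^ n := by
        gcongr
        exact h n
    _ = (((n : ℝ) + 1) ^ K * (ρ / ρ') ^ n) * (‖a n‖ * ρ' ^ n) := by rw [h5]; ring
    _ ≤ B * (‖a n‖ * ρ' ^ n) := by
        gcongr
        exact hB' n

theorem Gr.Dd {a : ℕ → ℂ} (ha : Gr a) : Gr (Dd a) := by
  apply ha.poly 1
  intro n
  rw [Da.Dd, norm_mul, pow_one]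
  gcongr
  have h : ‖(n : ℂ) + 1‖ = (n : ℝ) + 1 := by
    have : ((n : ℂ) + 1) = (((n : ℝ) + 1 : ℝ) : ℂ) := by push_cast; ring
    rw [this, Complex.norm_real, Real.norm_eq_abs, abs_of_pos (by positivity)]
  exact h.le

theorem Gr.Nn {a : ℕ → ℂ} (ha : Gr a) : Gr (Nn a) := by
  apply ha.poly 1
  intro n
  rw [Da.Nn, norm_mul, pow_one, Complex.norm_natCast]
  gcongr
  linarith

theorem Gr.conv {a b : ℕ → ℂ} (ha : Gr a) (hb : Gr b) : Gr (conv a b) := by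
  intro ρ h0 h1
  have h2 := ha.summ (z := (ρ : ℂ)) (by
    rw [Complex.norm_real, Real.norm_eq_abs, abs_of_nonneg h0]; exact h1)
  have h3 := hb.summ (z := (ρ : ℂ)) (by
    rw [Complex.norm_real, Real.norm_eq_abs, abs_of_nonneg h0]; exact h1)
  have h4 := summable_norm_sum_mul_antidiagonal_of_summable_norm h2 h3
  refine h4.congr fun n => ?_
  have h5 : ∑ p ∈ Finset.HasAntidiagonal.antidiagonal n, a p.1 * (ρ : ℂ) ^ p.1 * (b p.2 * (ρ : ℂ) ^ p.2) =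
      Da.conv a b n * (ρ : ℂ) ^ n := by
    rw [Da.conv, Finset.sum_mul]
    apply Finset.sum_congr rfl
    intro p hp
    rw [← Finset.HasAntidiagonal.mem_antidiagonal.mp hp, pow_add]
    ring
  rw [h5, norm_mul, norm_pow, Complex.norm_real, Real.norm_eq_abs, abs_of_nonneg h0]

theorem ser_conv {a b : ℕ → ℂ} (ha : Gr a) (hb : Gr b) {z : ℂ} (hz : ‖z‖ < 1) :
    ser (conv a b) z = ser a z * ser b z := by
  rw [ser, ser, ser, tsum_mul_tsum_eq_tsum_sum_antidiagonal_of_summable_norm (ha.summ hz) (hb.summ hz)]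
  apply tsum_congr
  intro n
  rw [conv, Finset.sum_mul]
  apply Finset.sum_congr rfl
  intro p hp
  rw [← Finset.HasAntidiagonal.mem_antidiagonal.mp hp, pow_add]
  ring

theorem ser_dil {a : ℕ → ℂ} (r : ℝ) (z : ℂ) : ser (dil r a) z = ser a (r * z) := by
  rw [ser, ser]
  apply tsum_congr
  intro n
  rw [dil, mul_pow]
  ring

theorem circ_norm {ρ : ℝ} (h0 : 0 ≤ ρ) (t : T) : ‖(ρ : ℂ) * e 1 t‖ = ρ := by
  rw [norm_mul, e_norm, mul_one, Complex.norm_real, Real.norm_eq_abs, abs_of_nonneg h0]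

theorem ser_cont {a : ℕ → ℂ} (ha : Gr a) {ρ : ℝ} (h0 : 0 ≤ ρ) (h1 : ρ < 1) :
    Continuous fun t : T => ser a ((ρ : ℂ) * e 1 t) := by
  apply continuous_tsum (u := fun n => ‖a n‖ * ρ ^ n)
  · intro n
    exact continuous_const.mul ((continuous_const.mul (e_cont 1)).pow n)
  · exact ha ρ h0 h1
  · intro n t
    rw [norm_mul, norm_pow, circ_norm h0]

theorem fc_ser {a : ℕ → ℂ} (ha : Gr a) {ρ : ℝ} (h0 : 0 ≤ ρ) (h1 : ρ < 1) (k : ℤ) :
    fourierCoeff (fun t : T => ser a ((ρ : ℂ) * e 1 t)) k =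
      if 0 ≤ k then a k.toNat * (ρ : ℂ) ^ k.toNat else 0 := by
  rw [fc_def]
  have h2 : ∀ t : T, e (-k) t * ser a ((ρ : ℂ) * e 1 t) =
      ∑' n : ℕ, (a n * (ρ : ℂ) ^ n) * e ((n : ℤ) - k) t := by
    intro t
    rw [ser, ← tsum_mul_left]
    apply tsum_congr
    intro n
    rw [sub_eq_add_neg, e_add, e_nat, mul_pow]
    ring
  simp_rw [h2]
  have h3 := hasSum_integral_of_summable_integral_norm (μ := (mu : Measure T))
    (F := fun (n : ℕ) (t : T) => (a n * (ρ : ℂ) ^ n) * e ((n : ℤ) - k) t)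
    (fun n => (Pool.Agent.Helper34.Dg.cont_int (continuous_const.mul (e_cont _)))) (by
      have : ∀ n : ℕ, ∫ t, ‖(a n * (ρ : ℂ) ^ n) * e ((n : ℤ) - k) t‖ ∂mu = ‖a n‖ * ρ ^ n := by
        intro n
        simp only [norm_mul, e_norm, norm_pow, Complex.norm_real, Real.norm_eq_abs,
          abs_of_nonneg h0, mul_one]
        simp
      simp_rw [this]
      exact ha ρ h0 h1)
  rw [← h3.tsum_eq]
  simp_rw [integral_const_mul, int_e]
  by_cases hk : 0 ≤ k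
  · rw [if_pos hk, tsum_eq_single k.toNat]
    · rw [if_pos (by omega), mul_one]
    · intro n hn
      rw [if_neg (by omega), mul_zero]
  · rw [if_neg hk]
    have : ∀ n : ℕ, (a n * (ρ : ℂ) ^ n) * (if (n : ℤ) - k = 0 then (1 : ℂ) else 0) = 0 := by
      intro n
      rw [if_neg (by omega), mul_zero]
    simp_rw [this]
    simp

theorem pars {a : ℕ → ℂ} (ha : Gr a) {ρ : ℝ} (h0 : 0 ≤ ρ) (h1 : ρ < 1) :
    HasSum (fun n => ‖a n‖ ^ 2 * ρ ^ (2 * n)) (∫ t, ‖ser a ((ρ : ℂ) * e 1 t)‖ ^ 2 ∂mu) := by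
  have h2 := parseval (f := fun t : T => ser a ((ρ : ℂ) * e 1 t))
    (Pool.Agent.Helper34.Dg.memLp2 (Pool.Agent.Helper34.Dg.bdd_cont (ser_cont ha h0 h1)))
  have h3 := (Nat.cast_injective (R := ℤ)).hasSum_iff (f := fun i : ℤ =>
    ‖fourierCoeff (fun t : T => ser a ((ρ : ℂ) * e 1 t)) i‖ ^ 2) (a := ∫ t, ‖ser a ((ρ : ℂ) * e 1 t)‖ ^ 2 ∂mu) (by
      intro i hi
      rw [fc_ser ha h0 h1, if_neg]
      · simp
      · intro h
        apply hi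
        exact ⟨i.toNat, by simp [h]⟩)
  rw [← h3] at h2
  convert h2 using 1
  funext n
  simp only [Function.comp_apply]
  rw [fc_ser ha h0 h1, if_pos (by omega), Int.toNat_natCast, norm_mul, norm_pow,
    Complex.norm_real, Real.norm_eq_abs, abs_of_nonneg h0, mul_pow, ← pow_mul, mul_comm n 2]

theorem N2_eq {a : ℕ → ℂ} (ha : Gr a) {ρ : ℝ} (h0 : 0 ≤ ρ) (h1 : ρ < 1) :
    N2 ρ a = ∫ t, ‖ser a ((ρ : ℂ) * e 1 t)‖ ^ 2 ∂mu := (pars ha h0 h1).tsum_eq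

theorem N2_summable {a : ℕ → ℂ} (ha : Gr a) {ρ : ℝ} (h0 : 0 ≤ ρ) (h1 : ρ < 1) :
    Summable fun n => ‖a n‖ ^ 2 * ρ ^ (2 * n) := (pars ha h0 h1).summable

/-- uniqueness of the coefficients -/
theorem ser_inj {a b : ℕ → ℂ} (ha : Gr a) (hb : Gr b)
    (h : ∀ z : ℂ, ‖z‖ < 1 → ser a z = ser b z) : a = b := by
  have h1 : ∀ z : ℂ, ‖z‖ < 1 → ser (a - b) z = 0 := by
    intro z hz
    have h2 := (ha.hasSum hz).sub (hb.hasSum hz)
    rw [h z hz, sub_self] at h2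
    rw [ser]
    refine HasSum.tsum_eq ?_
    refine h2.congr_fun fun n => ?_
    rw [Pi.sub_apply]
    ring
  have h2 := pars (ha.sub hb) (ρ := 1 / 2) (by norm_num) (by norm_num)
  have h3 : ∫ t, ‖ser (a - b) (((1 / 2 : ℝ) : ℂ) * e 1 t)‖ ^ 2 ∂mu = 0 := by
    have : ∀ t : T, ‖ser (a - b) (((1 / 2 : ℝ) : ℂ) * e 1 t)‖ ^ 2 = 0 := by
      intro t
      rw [h1]
      · simp
      · rw [circ_norm (by norm_num)]
        norm_num
    simp_rw [this]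
    simp
  rw [h3] at h2
  have h4 := (hasSum_zero_iff_of_nonneg (fun n => by positivity)).mp h2
  funext n
  have h5 := congrFun h4 n
  simp only [Pi.sub_apply, Pi.zero_apply] at h5
  have h6 : ‖a n - b n‖ ^ 2 = 0 := by
    rcases mul_eq_zero.mp h5 with h | h
    · exact h
    · exact absurd h (by positivity)
  exact sub_eq_zero.mp (norm_eq_zero.mp (pow_eq_zero_iff (by norm_num) |>.mp h6))

theorem N2_nonneg {a : ℕ → ℂ} {ρ : ℝ} (h0 : 0 ≤ ρ) : 0 ≤ N2 ρ a :=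
  tsum_nonneg fun n => by positivity

/-- multiplication by a bounded function -/
theorem N2_conv {a b : ℕ → ℂ} (ha : Gr a) (hb : Gr b) {ρ : ℝ} (h0 : 0 ≤ ρ) (h1 : ρ < 1) {C : ℝ}
    (hC : ∀ z : ℂ, ‖z‖ = ρ → ‖ser b z‖ ≤ C) : N2 ρ (conv b a) ≤ C ^ 2 * N2 ρ a := by
  rw [N2_eq (hb.conv ha) h0 h1, N2_eq ha h0 h1, ← integral_const_mul]
  have hc : ∀ {c : ℕ → ℂ}, Gr c → Integrable (fun t : T => ‖ser c ((ρ : ℂ) * e 1 t)‖ ^ 2) mu :=
    fun hc => Pool.Agent.Helper34.Dg.cont_intR ((ser_cont hc h0 h1).norm.pow 2)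
  apply integral_mono (hc (hb.conv ha)) ((hc ha).const_mul _)
  intro t
  have h2 := circ_norm h0 t
  simp only
  rw [ser_conv hb ha (by rw [h2]; exact h1), norm_mul, mul_pow]
  have h3 := hC _ h2
  have h4 : 0 ≤ C := (norm_nonneg _).trans h3
  gcongr

theorem N2_le {a b : ℕ → ℂ} (ha : Gr a) (hb : Gr b) {ρ : ℝ} (h0 : 0 ≤ ρ) (h1 : ρ < 1) {C : ℝ}
    (hC : 0 ≤ C) (h : ∀ n, ‖b n‖ ≤ C * ‖a n‖) : N2 ρ b ≤ C ^ 2 * N2 ρ a := by
  rw [N2, N2, ← tsum_mul_left]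
  apply Summable.tsum_le_tsum _ (N2_summable hb h0 h1) ((N2_summable ha h0 h1).mul_left _)
  intro n
  have h2 := h n
  calc ‖b n‖ ^ 2 * ρ ^ (2 * n) ≤ (C * ‖a n‖) ^ 2 * ρ ^ (2 * n) := by gcongr
    _ = C ^ 2 * (‖a n‖ ^ 2 * ρ ^ (2 * n)) := by ring

theorem N2_four {a b c d f : ℕ → ℂ} (ha : Gr a) (hb : Gr b) (hc : Gr c) (hd : Gr d) (hf : Gr f)
    {ρ : ℝ} (h0 : 0 ≤ ρ) (h1 : ρ < 1) (h : ∀ n, f n = a n - b n + c n + d n) :
    N2 ρ f ≤ 4 * (N2 ρ a + N2 ρ b + N2 ρ c + N2 ρ d) := by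
  have e1 : N2 ρ a + N2 ρ b + N2 ρ c + N2 ρ d = ∑' n, (‖a n‖ ^ 2 * ρ ^ (2 * n) +
      ‖b n‖ ^ 2 * ρ ^ (2 * n) + ‖c n‖ ^ 2 * ρ ^ (2 * n) + ‖d n‖ ^ 2 * ρ ^ (2 * n)) := by
    rw [((N2_summable ha h0 h1).add (N2_summable hb h0 h1)).add (N2_summable hc h0 h1)
      |>.tsum_add (N2_summable hd h0 h1), ((N2_summable ha h0 h1).add
      (N2_summable hb h0 h1)).tsum_add (N2_summable hc h0 h1),
      (N2_summable ha h0 h1).tsum_add (N2_summable hb h0 h1)]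
    rfl
  rw [e1, N2, ← tsum_mul_left]
  apply Summable.tsum_le_tsum _ (N2_summable hf h0 h1)
    (((((N2_summable ha h0 h1).add (N2_summable hb h0 h1)).add (N2_summable hc h0 h1)).add
      (N2_summable hd h0 h1)).mul_left 4)
  intro n
  have h2 : ‖f n‖ ≤ ‖a n‖ + ‖b n‖ + ‖c n‖ + ‖d n‖ := by
    rw [h n]
    calc _ ≤ ‖a n - b n + c n‖ + ‖d n‖ := norm_add_le _ _
      _ ≤ ‖a n - b n‖ + ‖c n‖ + ‖d n‖ := by gcongr; exact norm_add_le _ _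
      _ ≤ _ := by gcongr; exact norm_sub_le _ _
  have h3 : ‖f n‖ ^ 2 ≤ 4 * (‖a n‖ ^ 2 + ‖b n‖ ^ 2 + ‖c n‖ ^ 2 + ‖d n‖ ^ 2) := by
    calc ‖f n‖ ^ 2 ≤ (‖a n‖ + ‖b n‖ + ‖c n‖ + ‖d n‖) ^ 2 := by gcongr
      _ ≤ _ := by nlinarith [sq_nonneg (‖a n‖ - ‖b n‖), sq_nonneg (‖a n‖ - ‖c n‖),
          sq_nonneg (‖a n‖ - ‖d n‖), sq_nonneg (‖b n‖ - ‖c n‖), sq_nonneg (‖b n‖ - ‖d n‖),
          sq_nonneg (‖c n‖ - ‖d n‖)]
  have h4 : 0 ≤ ρ ^ (2 * n) := by positivity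
  nlinarith [mul_le_mul_of_nonneg_right h3 h4]

end Pool.Agent.Helper34.Da
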