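import Pool.Agent.Helper34.Da.A

set_option autoImplicit false
set_option linter.unusedVariables false

namespace Pool.Agent.Helper34.Da

open MeasureTheory Filter Topology

/-- Taylor coefficients -/
noncomputable def tay (Q : ℂ → ℂ) (n : ℕ) : ℂ := (n.factorial : ℂ)⁻¹ * iteratedDeriv n Q 0

theorem tay_hasSum {Q : ℂ → ℂ} (hQ : DifferentiableOn ℂ Q (Metric.ball 0 1)) {z : ℂ}
    (hz : ‖z‖ < 1) : HasSum (fun n => tay Q n * z ^ n) (Q z) := by
  have h := Complex.hasSum_taylorSeries_on_ball hQ (z := z) (by simpa using hz)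
  have e1 : (fun n => tay Q n * z ^ n) =
      fun n : ℕ => (n.factorial : ℂ)⁻¹ • (z - 0) ^ n • iteratedDeriv n Q 0 := by
    funext n
    simp only [tay, smul_eq_mul, sub_zero]
    ring
  rw [e1]
  exact h

theorem tay_Gr {Q : ℂ → ℂ} (hQ : DifferentiableOn ℂ Q (Metric.ball 0 1)) : Gr (tay Q) := by
  intro ρ h0 h1
  have h2 : ‖(ρ : ℂ)‖ < 1 := by
    rw [Complex.norm_real, Real.norm_eq_abs, abs_of_nonneg h0]; exact h1
  have h := (tay_hasSum hQ h2).summable.norm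
  simpa [norm_mul, norm_pow, abs_of_nonneg h0] using h

theorem ser_tay {Q : ℂ → ℂ} (hQ : DifferentiableOn ℂ Q (Metric.ball 0 1)) {z : ℂ}
    (hz : ‖z‖ < 1) : ser (tay Q) z = Q z := (tay_hasSum hQ hz).tsum_eq

theorem ser_Nn {Q : ℂ → ℂ} (hQ : DifferentiableOn ℂ Q (Metric.ball 0 1)) {z : ℂ}
    (hz : ‖z‖ < 1) : ser (Nn (tay Q)) z = z * deriv Q z := by
  have hQ' : DifferentiableOn ℂ (deriv Q) (Metric.ball 0 1) := hQ.deriv Metric.isOpen_ball
  have h1 := tay_hasSum hQ' hz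
  have h2 : ∀ n, tay (deriv Q) n = ((n : ℂ) + 1) * tay Q (n + 1) := by
    intro n
    rw [tay, tay, ← iteratedDeriv_succ', Nat.factorial_succ]
    have h3 : (n.factorial : ℂ) ≠ 0 := by exact_mod_cast n.factorial_ne_zero
    have h4 : (n : ℂ) + 1 ≠ 0 := by exact_mod_cast n.succ_ne_zero
    push_cast
    field_simp
  have h3 : HasSum (fun n => Nn (tay Q) (n + 1) * z ^ (n + 1)) (z * deriv Q z) := by
    have h4 := h1.mul_left z
    have e1 : (fun n => Nn (tay Q) (n + 1) * z ^ (n + 1)) =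
        fun i => z * (tay (deriv Q) i * z ^ i) := by
      funext n
      rw [h2, Nn]
      push_cast
      ring
    rw [e1]
    exact h4
  have h4 := (hasSum_nat_add_iff (f := fun n => Nn (tay Q) n * z ^ n) 1).mp h3
  have h5 : ∑ i ∈ Finset.range 1, Nn (tay Q) i * z ^ i = 0 := by
    simp [Nn]
  rw [h5, add_zero] at h4
  exact h4.tsum_eq

theorem deriv_bound {Q : ℂ → ℂ} (hQ : DifferentiableOn ℂ Q (Metric.ball 0 1)) {C : ℝ}
    (hC : ∀ z : ℂ, ‖z‖ < 1 → ‖Q z‖ ≤ C) {r : ℝ} (hr : r < 1) {z : ℂ} (hz : ‖z‖ ≤ r) :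
    ‖deriv Q z‖ ≤ 2 * C / (1 - r) := by
  have h1 : 0 < (1 - r) / 2 := by linarith
  have hsub : Metric.closedBall z ((1 - r) / 2) ⊆ Metric.ball 0 1 := by
    intro u hu
    rw [Metric.mem_closedBall, dist_eq_norm] at hu
    rw [mem_ball_zero_iff]
    have h2 : u = (u - z) + z := by ring
    rw [h2]
    calc _ ≤ _ := norm_add_le _ _
      _ < 1 := by linarith
  have h2 := Complex.norm_deriv_le_of_forall_mem_sphere_norm_le (c := z) (C := C) h1
    (hQ.diffContOnCl_ball hsub) (fun u hu => hC u (by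
      have := hsub (Metric.sphere_subset_closedBall hu)
      simpa using this))
  refine h2.trans (le_of_eq ?_)
  field_simp

/-- the identity for the dilations -/
theorem dil_identity (q f : ℕ → ℂ) (r : ℝ) (n : ℕ) :
    Dd (conv (dil r q) f) n = dil r (Dd (conv q f)) n - conv (dil r q) (dil r (Dd f)) n +
      conv (dil r (Nn q)) (f - dil r f) n + conv (dil r q) (Dd f) n := by
  simp only [Dd, dil, conv, Nn, Pi.sub_apply, Finset.mul_sum, Finset.sum_mul]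
  rw [← Finset.sum_sub_distrib, ← Finset.sum_add_distrib, ← Finset.sum_add_distrib]
  apply Finset.sum_congr rfl
  intro p hp
  rw [← Finset.HasAntidiagonal.mem_antidiagonal.mp hp, pow_add]
  push_cast
  ring

theorem one_sub_pow {r : ℝ} (h0 : 0 ≤ r) (h1 : r ≤ 1) (n : ℕ) : 1 - r ^ n ≤ (1 - r) * ((n : ℝ) + 1) := by
  have h2 := one_add_mul_le_pow (a := r - 1) (by linarith) n
  have h3 : 1 + (r - 1) = r := by ring
  rw [h3] at h2
  have h4 : (0 : ℝ) ≤ n := Nat.cast_nonneg n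
  nlinarith

/-- The key estimate on each circle. -/
theorem key {Q : ℂ → ℂ} (hQ : DifferentiableOn ℂ Q (Metric.ball 0 1)) {C : ℝ} (hC0 : 0 ≤ C)
    (hC : ∀ z : ℂ, ‖z‖ < 1 → ‖Q z‖ ≤ C) {f : ℕ → ℂ} (hf : Gr f) {r : ℝ} (hr0 : 0 ≤ r) (hr1 : r < 1)
    {ρ : ℝ} (h0 : 0 ≤ ρ) (h1 : ρ < 1) :
    N2 ρ (Dd (conv (dil r (tay Q)) f)) ≤
      4 * N2 ρ (Dd (conv (tay Q) f)) + 24 * C ^ 2 * N2 ρ (Dd f) := by
  have hq := tay_Gr hQ
  have hqr : Gr (dil r (tay Q)) := hq.dil hr0 hr1.le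
  have hz : ∀ z : ℂ, ‖z‖ = ρ → ‖(r : ℂ) * z‖ ≤ r ∧ ‖(r : ℂ) * z‖ < 1 := by
    intro z hz
    rw [norm_mul, Complex.norm_real, Real.norm_eq_abs, abs_of_nonneg hr0, hz]
    constructor <;> nlinarith
  have b1 : ∀ z : ℂ, ‖z‖ = ρ → ‖ser (dil r (tay Q)) z‖ ≤ C := by
    intro z hz'
    rw [ser_dil, ser_tay hQ (hz z hz').2]
    exact hC _ (hz z hz').2
  have b2 : ∀ z : ℂ, ‖z‖ = ρ → ‖ser (dil r (Nn (tay Q))) z‖ ≤ 2 * C / (1 - r) := by
    intro z hz'
    rw [ser_dil, ser_Nn hQ (hz z hz').2, norm_mul]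
    have h2 := deriv_bound hQ hC hr1 (hz z hz').1
    have h3 := (hz z hz').2.le
    calc _ ≤ 1 * (2 * C / (1 - r)) := by gcongr
      _ = _ := one_mul _
  have hsub : Gr (f - dil r f) := hf.sub (hf.dil hr0 hr1.le)
  have e0 := N2_four (f := Dd (conv (dil r (tay Q)) f)) ((hq.conv hf).Dd.dil hr0 hr1.le)
    (hqr.conv (hf.Dd.dil hr0 hr1.le)) ((hq.Nn.dil hr0 hr1.le).conv hsub) (hqr.conv hf.Dd)
    (hqr.conv hf).Dd h0 h1 (dil_identity (tay Q) f r)
  have dle : ∀ (a : ℕ → ℂ), Gr a → N2 ρ (dil r a) ≤ N2 ρ a := by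
    intro a ha
    have h2 := N2_le (a := a) (b := dil r a) (C := 1) ha (ha.dil hr0 hr1.le) h0 h1 zero_le_one (by
      intro n
      rw [dil, norm_mul, norm_pow, Complex.norm_real, Real.norm_eq_abs, abs_of_nonneg hr0, one_mul]
      have h3 : r ^ n ≤ 1 := pow_le_one₀ hr0 hr1.le
      have h4 := norm_nonneg (a n)
      nlinarith)
    simpa using h2
  have e1 := dle _ (hq.conv hf).Dd
  have e2 : N2 ρ (conv (dil r (tay Q)) (dil r (Dd f))) ≤ C ^ 2 * N2 ρ (Dd f) :=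
    (N2_conv (hf.Dd.dil hr0 hr1.le) hqr h0 h1 b1).trans (by
      gcongr
      exact dle _ hf.Dd)
  have e3 : N2 ρ (conv (dil r (Nn (tay Q))) (f - dil r f)) ≤ 4 * C ^ 2 * N2 ρ (Dd f) := by
    have h2 := N2_conv hsub (hq.Nn.dil hr0 hr1.le) h0 h1 b2
    have h3 := N2_le (a := Dd f) (b := f - dil r f) (C := 1 - r) hf.Dd hsub h0 h1 (by linarith) (by
      intro n
      have h4 : (f - dil r f) n = ((1 - r ^ n : ℝ) : ℂ) * f n := by
        rw [Pi.sub_apply, dil]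
        push_cast
        ring
      have h5 : r ^ n ≤ 1 := pow_le_one₀ hr0 hr1.le
      have h6 : ‖(n : ℂ) + 1‖ = (n : ℝ) + 1 := by
        have : ((n : ℂ) + 1) = (((n : ℝ) + 1 : ℝ) : ℂ) := by push_cast; ring
        rw [this, Complex.norm_real, Real.norm_eq_abs, abs_of_pos (by positivity)]
      rw [h4, norm_mul, Complex.norm_real, Real.norm_eq_abs, abs_of_nonneg (by linarith), Dd,
        norm_mul, h6, ← mul_assoc]
      gcongr
      exact one_sub_pow hr0 hr1.le n)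
    have h4 : 0 < 1 - r := by linarith
    calc _ ≤ (2 * C / (1 - r)) ^ 2 * N2 ρ (f - dil r f) := h2
      _ ≤ (2 * C / (1 - r)) ^ 2 * ((1 - r) ^ 2 * N2 ρ (Dd f)) := by gcongr
      _ = 4 * C ^ 2 * N2 ρ (Dd f) := by field_simp; ring
  have e4 : N2 ρ (conv (dil r (tay Q)) (Dd f)) ≤ C ^ 2 * N2 ρ (Dd f) := N2_conv hf.Dd hqr h0 h1 b1
  linarith

end Pool.Agent.Helper34.Da
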