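import Pool.Agent.Helper34.Da.B

set_option autoImplicit false
set_option linter.unusedVariables false

namespace Pool.Agent.Helper34.Da

open MeasureTheory Filter Topology
open scoped ENNReal

/-- the kernel of the Laplace transform -/
noncomputable def kt (α t : ℝ) (n : ℕ) : ℝ :=
  t ^ (1 - α) * Real.exp (-t) * (Real.exp (-(t / 2))) ^ (2 * n)

theorem kt_eq (α t : ℝ) (n : ℕ) : kt α t n =
    t ^ (2 - α - 1) * Real.exp (-(((n : ℝ) + 1) * t)) := by
  unfold kt
  rw [← Real.exp_nat_mul, mul_assoc, ← Real.exp_add]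
  congr 2
  · ring
  · push_cast
    ring

theorem lap {α : ℝ} (hα : α < 2) (n : ℕ) : ∫⁻ t in Set.Ioi (0 : ℝ), ENNReal.ofReal (kt α t n) =
    ENNReal.ofReal (Real.Gamma (2 - α) * ((n : ℝ) + 1) ^ (α - 2)) := by
  have h1 := Real.integral_rpow_mul_exp_neg_mul_Ioi (a := 2 - α) (r := (n : ℝ) + 1) (by linarith)
    (by positivity)
  have hG : 0 < Real.Gamma (2 - α) := Real.Gamma_pos_of_pos (by linarith)
  have h2 : (1 / ((n : ℝ) + 1)) ^ (2 - α) * Real.Gamma (2 - α) =
      Real.Gamma (2 - α) * ((n : ℝ) + 1) ^ (α - 2) := by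
    rw [one_div, Real.inv_rpow (by positivity), ← Real.rpow_neg (by positivity), mul_comm]
    congr 2
    ring
  rw [h2] at h1
  have h3 : ∫ t in Set.Ioi (0 : ℝ), kt α t n = Real.Gamma (2 - α) * ((n : ℝ) + 1) ^ (α - 2) := by
    rw [← h1]
    simp_rw [kt_eq]
  have hint : Integrable (fun t => kt α t n) (volume.restrict (Set.Ioi (0 : ℝ))) := by
    by_contra hcon
    rw [integral_undef hcon] at h3
    have : 0 < Real.Gamma (2 - α) * ((n : ℝ) + 1) ^ (α - 2) := by positivity
    linarith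
  rw [← h3, ofReal_integral_eq_lintegral_ofReal hint]
  rw [EventuallyLE, ae_restrict_iff' measurableSet_Ioi]
  refine Eventually.of_forall fun t ht => ?_
  have ht' : (0 : ℝ) < t := ht
  change 0 ≤ kt α t n
  unfold kt
  positivity

/-- the square of the norm of `D_α` -/
noncomputable def En (α : ℝ) (a : ℕ → ℂ) : ℝ≥0∞ :=
  ∑' n : ℕ, ENNReal.ofReal (((n : ℝ) + 1) ^ α * ‖a n‖ ^ 2)

/-- integrand -/
noncomputable def gt (α : ℝ) (a : ℕ → ℂ) (t : ℝ) : ℝ≥0∞ :=
  ∑' n : ℕ, ENNReal.ofReal (‖Dd a n‖ ^ 2) * ENNReal.ofReal (kt α t n)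

theorem gt_meas (α : ℝ) (a : ℕ → ℂ) : Measurable (gt α a) := by
  unfold gt
  apply Measurable.ennreal_tsum
  intro n
  apply Measurable.const_mul
  apply ENNReal.measurable_ofReal.comp
  unfold kt
  fun_prop

theorem int_gt {α : ℝ} (hα : α < 2) (a : ℕ → ℂ) : ∫⁻ t in Set.Ioi (0 : ℝ), gt α a t =
    ENNReal.ofReal (Real.Gamma (2 - α)) * En α a := by
  unfold gt
  rw [lintegral_tsum]
  · rw [En, ← ENNReal.tsum_mul_left]
    apply tsum_congr
    intro n
    rw [lintegral_const_mul', lap hα]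
    · have hG : 0 < Real.Gamma (2 - α) := Real.Gamma_pos_of_pos (by linarith)
      rw [← ENNReal.ofReal_mul (by positivity), ← ENNReal.ofReal_mul hG.le]
      congr 1
      have h1 : ‖(n : ℂ) + 1‖ = (n : ℝ) + 1 := by
        have : ((n : ℂ) + 1) = (((n : ℝ) + 1 : ℝ) : ℂ) := by push_cast; ring
        rw [this, Complex.norm_real, Real.norm_eq_abs, abs_of_pos (by positivity)]
      rw [Dd, norm_mul, h1, mul_pow]
      have h2 : ((n : ℝ) + 1) ^ α = ((n : ℝ) + 1) ^ 2 * ((n : ℝ) + 1) ^ (α - 2) := by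
        rw [← Real.rpow_natCast, ← Real.rpow_add (by positivity)]
        congr 1
        push_cast
        ring
      rw [h2]
      ring
    · exact ENNReal.ofReal_ne_top
  · intro n
    apply Measurable.aemeasurable
    apply Measurable.const_mul
    apply ENNReal.measurable_ofReal.comp
    unfold kt
    fun_prop

theorem gt_eq {α : ℝ} {a : ℕ → ℂ} (ha : Gr a) {t : ℝ} (ht : 0 < t) : gt α a t =
    ENNReal.ofReal (t ^ (1 - α) * Real.exp (-t) * N2 (Real.exp (-(t / 2))) (Dd a)) := by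
  have h0 : 0 ≤ Real.exp (-(t / 2)) := (Real.exp_pos _).le
  have h1 : Real.exp (-(t / 2)) < 1 := by
    rw [Real.exp_lt_one_iff]
    linarith
  rw [N2, ← tsum_mul_left, ENNReal.ofReal_tsum_of_nonneg]
  · unfold gt
    apply tsum_congr
    intro n
    rw [← ENNReal.ofReal_mul (by positivity)]
    congr 1
    unfold kt
    ring
  · intro n
    positivity
  · exact (N2_summable ha.Dd h0 h1).mul_left _

/-- passage from the circles to the norm of `D_α` -/
theorem En_le {α : ℝ} (hα : α < 2) {a b c : ℕ → ℂ} (ha : Gr a) (hb : Gr b) (hc : Gr c)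
    {A B : ℝ} (hA : 0 ≤ A) (hB : 0 ≤ B)
    (h : ∀ ρ : ℝ, 0 ≤ ρ → ρ < 1 → N2 ρ (Dd a) ≤ A * N2 ρ (Dd b) + B * N2 ρ (Dd c)) :
    En α a ≤ ENNReal.ofReal A * En α b + ENNReal.ofReal B * En α c := by
  have hG : 0 < Real.Gamma (2 - α) := Real.Gamma_pos_of_pos (by linarith)
  have h1 : ∫⁻ t in Set.Ioi (0 : ℝ), gt α a t ≤
      ∫⁻ t in Set.Ioi (0 : ℝ), (ENNReal.ofReal A * gt α b t + ENNReal.ofReal B * gt α c t) := by
    apply setLIntegral_mono' measurableSet_Ioi
    intro t ht
    have ht' : (0 : ℝ) < t := ht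
    have h0 : 0 ≤ Real.exp (-(t / 2)) := (Real.exp_pos _).le
    have h1 : Real.exp (-(t / 2)) < 1 := by
      rw [Real.exp_lt_one_iff]
      linarith
    rw [gt_eq ha ht', gt_eq hb ht', gt_eq hc ht', ← ENNReal.ofReal_mul hA,
      ← ENNReal.ofReal_mul hB, ← ENNReal.ofReal_add]
    · apply ENNReal.ofReal_le_ofReal
      have h2 := h _ h0 h1
      have h3 : 0 ≤ t ^ (1 - α) * Real.exp (-t) := by positivity
      calc _ ≤ t ^ (1 - α) * Real.exp (-t) * (A * N2 (Real.exp (-(t / 2))) (Dd b) +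
            B * N2 (Real.exp (-(t / 2))) (Dd c)) := by gcongr
        _ = _ := by ring
    · have := N2_nonneg (a := Dd b) h0
      positivity
    · have := N2_nonneg (a := Dd c) h0
      positivity
  rw [lintegral_add_left ((gt_meas α b).const_mul _), lintegral_const_mul _ (gt_meas α b),
    lintegral_const_mul _ (gt_meas α c), int_gt hα, int_gt hα, int_gt hα] at h1
  have h2 : ENNReal.ofReal (Real.Gamma (2 - α)) * En α a ≤ ENNReal.ofReal (Real.Gamma (2 - α)) *
      (ENNReal.ofReal A * En α b + ENNReal.ofReal B * En α c) := by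
    refine h1.trans (le_of_eq ?_)
    ring
  rwa [ENNReal.mul_le_mul_iff_right (by simpa using hG) ENNReal.ofReal_ne_top] at h2

end Pool.Agent.Helper34.Da
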