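import Pool.Agent.Helper34.Da.C
import Pool.Agent.Helper34.Cq.Conv

set_option autoImplicit false
set_option linter.unusedVariables false

namespace Pool.Agent.Helper34.Da

open Filter Topology
open scoped ENNReal

/-- the Hilbert space `ℓ²` -/
abbrev H2 : Type := lp (fun _ : ℕ => ℂ) 2

theorem mem2 {y : ℕ → ℂ} (h : Summable fun n => ‖y n‖ ^ 2) : Memℓp y 2 := by
  apply memℓp_gen
  simpa using h

theorem norm_sq (x : H2) : HasSum (fun n => ‖x n‖ ^ 2) (‖x‖ ^ 2) := by
  have h := lp.hasSum_norm (p := 2) (by simp) x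
  simpa using h

theorem coord_le (x : H2) (n : ℕ) : ‖x n‖ ≤ ‖x‖ := lp.norm_apply_le_norm (by simp) x n

/-- weighted shifts -/
theorem exists_sh (k : ℕ) (b : ℕ → ℝ) {B : ℝ} (hb : ∀ n, |b n| ≤ B) :
    ∃ S : H2 →L[ℂ] H2, ‖S‖ ≤ B ∧ (∀ x n, S x (n + k) = (b n : ℂ) * x n) ∧
      ∀ x n, n < k → S x n = 0 := by
  have hB : 0 ≤ B := (abs_nonneg _).trans (hb 0)
  set y : H2 → ℕ → ℂ := fun x n => if n < k then 0 else (b (n - k) : ℂ) * x (n - k) with hy
  have hy1 : ∀ x n, y x (n + k) = (b n : ℂ) * x n := by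
    intro x n
    rw [hy]
    simp
  have hy2 : ∀ x n, n < k → y x n = 0 := by
    intro x n hn
    rw [hy]
    simp [hn]
  have hle : ∀ (x : H2) n, ‖y x (n + k)‖ ^ 2 ≤ B ^ 2 * ‖x n‖ ^ 2 := by
    intro x n
    rw [hy1, norm_mul, Complex.norm_real, Real.norm_eq_abs, mul_pow]
    have := hb n
    gcongr
  have hs1 : ∀ x : H2, Summable fun n => ‖y x (n + k)‖ ^ 2 := fun x =>
    Summable.of_nonneg_of_le (fun n => by positivity) (hle x) ((norm_sq x).summable.mul_left _)
  have hs : ∀ x : H2, Summable fun n => ‖y x n‖ ^ 2 := fun x =>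
    (summable_nat_add_iff k).mp (hs1 x)
  have hnorm : ∀ x : H2, ‖(⟨y x, mem2 (hs x)⟩ : H2)‖ ≤ B * ‖x‖ := by
    intro x
    have h1 := (norm_sq (⟨y x, mem2 (hs x)⟩ : H2)).tsum_eq
    have h2 : ∑' n, ‖y x n‖ ^ 2 = ∑' n, ‖y x (n + k)‖ ^ 2 := by
      rw [← (hs x).sum_add_tsum_nat_add k]
      rw [Finset.sum_eq_zero, zero_add]
      intro n hn
      rw [hy2 x n (Finset.mem_range.mp hn)]
      simp
    have h3 : ∑' n, ‖y x (n + k)‖ ^ 2 ≤ B ^ 2 * ‖x‖ ^ 2 := by
      rw [← (norm_sq x).tsum_eq, ← tsum_mul_left]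
      exact (hs1 x).tsum_le_tsum (hle x) ((norm_sq x).summable.mul_left _)
    have h4 : ‖(⟨y x, mem2 (hs x)⟩ : H2)‖ ^ 2 ≤ (B * ‖x‖) ^ 2 := by
      rw [← h1, mul_pow]
      change ∑' n, ‖y x n‖ ^ 2 ≤ _
      rw [h2]
      exact h3
    exact (pow_le_pow_iff_left₀ (norm_nonneg _) (by positivity) (by norm_num)).mp h4
  let L : H2 →ₗ[ℂ] H2 :=
    { toFun := fun x => ⟨y x, mem2 (hs x)⟩
      map_add' := fun a b => by
        ext n
        change y (a + b) n = y a n + y b n
        rw [hy]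
        simp only
        split_ifs
        · simp
        · change _ * (a (n - k) + b (n - k)) = _
          ring
      map_smul' := fun c a => by
        ext n
        change y (c • a) n = c * y a n
        rw [hy]
        simp only
        split_ifs
        · simp
        · change _ * (c * a (n - k)) = _
          ring }
  refine ⟨L.mkContinuous B hnorm, LinearMap.mkContinuous_norm_le _ hB _, fun x n => hy1 x n,
    fun x n hn => hy2 x n hn⟩

variable (α : ℝ)

/-- `u n = (n+1)^{-α/2}` -/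
noncomputable def uu (n : ℕ) : ℝ := ((n : ℝ) + 1) ^ (-α / 2)

theorem uu_pos (n : ℕ) : 0 < uu α n := by unfold uu; positivity

theorem uu_ne (n : ℕ) : (uu α n : ℂ) ≠ 0 := by exact_mod_cast (uu_pos α n).ne'

theorem uu_sq (n : ℕ) : ((n : ℝ) + 1) ^ α * uu α n ^ 2 = 1 := by
  unfold uu
  rw [← Real.rpow_natCast, ← Real.rpow_mul (by positivity), ← Real.rpow_add (by positivity)]
  have : α + -α / 2 * ((2 : ℕ) : ℝ) = 0 := by push_cast; ring
  rw [this, Real.rpow_zero]

/-- a natural number bounding the exponent -/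
noncomputable def KK : ℕ := ⌈|α|⌉₊

theorem rpow_le_KK {x : ℝ} (hx : 1 ≤ x) {s : ℝ} (hs : s ≤ |α|) : x ^ s ≤ x ^ KK α := by
  rw [← Real.rpow_natCast]
  apply Real.rpow_le_rpow_of_exponent_le hx
  exact hs.trans (Nat.le_ceil _)

theorem uu_le (n : ℕ) : uu α n ≤ ((n : ℝ) + 1) ^ KK α := by
  apply rpow_le_KK
  · have : (0 : ℝ) ≤ n := Nat.cast_nonneg n
    linarith
  · have := neg_abs_le α
    have := abs_nonneg α
    linarith

/-- coefficients of the function of `x` -/
noncomputable def co (x : H2) (n : ℕ) : ℂ := (uu α n : ℂ) * x n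

theorem co_Gr (x : H2) : Gr (co α x) := by
  have h1 : Gr (fun _ : ℕ => (‖x‖ : ℂ)) := by
    intro ρ h0 h1
    simp only [Complex.norm_real]
    exact (summable_geometric_of_lt_one h0 h1).mul_left _
  apply h1.poly (KK α)
  intro n
  rw [co, norm_mul, Complex.norm_real, Complex.norm_real, norm_norm, Real.norm_eq_abs,
    abs_of_pos (uu_pos α n)]
  have := uu_le α n
  have := coord_le x n
  gcongr

theorem co_inj {x y : H2} (h : co α x = co α y) : x = y := by
  ext n
  have h1 := congrFun h n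
  unfold co at h1
  exact mul_left_cancel₀ (uu_ne α n) h1

theorem En_co (x : H2) : En α (co α x) = ENNReal.ofReal (‖x‖ ^ 2) := by
  rw [← (norm_sq x).tsum_eq, ENNReal.ofReal_tsum_of_nonneg (fun n => by positivity)
    (norm_sq x).summable, En]
  apply tsum_congr
  intro n
  congr 1
  rw [co, norm_mul, Complex.norm_real, Real.norm_eq_abs, abs_of_pos (uu_pos α n), mul_pow,
    ← mul_assoc, uu_sq, one_mul]

/-- multiplication by `z^k` -/
theorem exists_mulz (k : ℕ) : ∃ S : H2 →L[ℂ] H2, ‖S‖ ≤ ((k : ℝ) + 1) ^ KK α ∧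
    (∀ x n, co α (S x) (n + k) = co α x n) ∧ ∀ x n, n < k → co α (S x) n = 0 := by
  obtain ⟨S, h1, h2, h3⟩ := exists_sh k (fun n => uu α n / uu α (n + k))
    (B := ((k : ℝ) + 1) ^ KK α) (by
      intro n
      have hn : (0 : ℝ) ≤ n := Nat.cast_nonneg n
      have hk : (0 : ℝ) ≤ k := Nat.cast_nonneg k
      rw [abs_of_pos (div_pos (uu_pos α n) (uu_pos α (n + k)))]
      have e1 : uu α n / uu α (n + k) = (((n : ℝ) + k + 1) / (n + 1)) ^ (α / 2) := by
        unfold uu
        push_cast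
        rw [← Real.div_rpow (by positivity) (by positivity)]
        have : ((n : ℝ) + 1) / (n + k + 1) = (((n : ℝ) + k + 1) / (n + 1))⁻¹ := by
          rw [inv_div]
        rw [this, Real.inv_rpow (by positivity), ← Real.rpow_neg (by positivity)]
        congr 1
        ring
      have e2 : 1 ≤ ((n : ℝ) + k + 1) / (n + 1) := by
        rw [le_div_iff₀ (by positivity)]
        linarith
      have e3 : ((n : ℝ) + k + 1) / (n + 1) ≤ k + 1 := by
        rw [div_le_iff₀ (by positivity)]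
        nlinarith
      rw [e1]
      calc _ ≤ (((n : ℝ) + k + 1) / (n + 1)) ^ KK α := by
            apply rpow_le_KK α e2
            have := le_abs_self α
            have := abs_nonneg α
            linarith
        _ ≤ _ := by gcongr)
  refine ⟨S, h1, fun x n => ?_, fun x n hn => ?_⟩
  · rw [co, co, h2]
    have := uu_ne α (n + k)
    push_cast
    field_simp
  · rw [co, h3 x n hn, mul_zero]

/-- multiplication by `z^k` -/
noncomputable def Sz (k : ℕ) : H2 →L[ℂ] H2 := Classical.choose (exists_mulz α k)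

theorem Sz_norm (k : ℕ) : ‖Sz α k‖ ≤ ((k : ℝ) + 1) ^ KK α :=
  (Classical.choose_spec (exists_mulz α k)).1

theorem ser_shift {a b : ℕ → ℂ} (ha : Gr a) (hb : Gr b) (k : ℕ) (h1 : ∀ n, a (n + k) = b n)
    (h2 : ∀ n, n < k → a n = 0) {z : ℂ} (hz : ‖z‖ < 1) : ser a z = z ^ k * ser b z := by
  have h3 := (hb.hasSum hz).mul_left (z ^ k)
  have e1 : (fun n => z ^ k * (b n * z ^ n)) = fun n => a (n + k) * z ^ (n + k) := by
    funext n
    rw [h1, pow_add]
    ring
  rw [e1] at h3
  have h4 := (hasSum_nat_add_iff (f := fun n => a n * z ^ n) k).mp h3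
  rw [Finset.sum_eq_zero, add_zero] at h4
  · exact h4.tsum_eq
  · intro n hn
    rw [h2 n (Finset.mem_range.mp hn), zero_mul]

theorem ser_Sz (k : ℕ) (x : H2) {z : ℂ} (hz : ‖z‖ < 1) :
    ser (co α (Sz α k x)) z = z ^ k * ser (co α x) z :=
  ser_shift (co_Gr α _) (co_Gr α _) k (fun n => (Classical.choose_spec (exists_mulz α k)).2.1 x n)
    (fun n hn => (Classical.choose_spec (exists_mulz α k)).2.2 x n hn) hz

theorem co_add (x y : H2) : co α (x + y) = co α x + co α y := by
  funext n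
  change _ * (x n + y n) = _ * x n + _ * y n
  ring

theorem co_smul (c : ℂ) (x : H2) : co α (c • x) = fun n => c * co α x n := by
  funext n
  change _ * (c * x n) = c * (_ * x n)
  ring

theorem co_single (k : ℕ) (c : ℂ) : co α (lp.single 2 k c) =
    fun n => if n = k then (uu α k : ℂ) * c else 0 := by
  funext n
  by_cases h : n = k
  · subst h
    rw [if_pos rfl, co, lp.single_apply_self]
  · rw [if_neg h, co, lp.single_apply_ne (p := 2) (hij := h), mul_zero]

theorem ser_single (k : ℕ) (c z : ℂ) : ser (co α (lp.single 2 k c)) z = (uu α k : ℂ) * c * z ^ k := by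
  rw [co_single, ser, tsum_eq_single k]
  · simp
  · intro n hn
    rw [if_neg hn, zero_mul]

theorem ser_diff {a : ℕ → ℂ} (ha : Gr a) : DifferentiableOn ℂ (ser a) (Metric.ball 0 1) := by
  intro z hz
  rw [mem_ball_zero_iff] at hz
  obtain ⟨ρ, h1, h2⟩ := exists_between hz
  have h0 : 0 ≤ ρ := (norm_nonneg _).trans h1.le
  have h3 : DifferentiableOn ℂ (fun w : ℂ => ∑' n, a n * w ^ n) (Metric.ball 0 ρ) := by
    apply Complex.differentiableOn_tsum_of_summable_norm (ha ρ h0 h2) _ Metric.isOpen_ball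
    · intro n w hw
      rw [mem_ball_zero_iff] at hw
      rw [norm_mul, norm_pow]
      gcongr
    · intro n
      fun_prop
  exact ((h3 z (by simpa using h1)).differentiableAt (Metric.isOpen_ball.mem_nhds
    (by simpa using h1))).differentiableWithinAt

end Pool.Agent.Helper34.Da
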