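import Pool.Agent.Helper34.Da.D

set_option autoImplicit false
set_option linter.unusedVariables false

namespace Pool.Agent.Helper34.Da

open Filter Topology MvPolynomial
open scoped ENNReal
open Pool.Agent.Helper34.Cq

/-- the unit disc as a subset of `ℂ^1` -/
def Dsc : Set (Fin 1 → ℂ) := {w | ‖w 0‖ < 1}

theorem isOpen_Dsc : IsOpen Dsc :=
  isOpen_lt (continuous_norm.comp (continuous_apply 0)) continuous_const

variable (α : ℝ)

/-- the function of an element -/
noncomputable def vl : H2 →ₗ[ℂ] (Dsc → ℂ) where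
  toFun x := fun w => ser (co α x) ((w : Fin 1 → ℂ) 0)
  map_add' x y := by
    funext w
    have hw : ‖(w : Fin 1 → ℂ) 0‖ < 1 := w.2
    have h := ((co_Gr α x).hasSum hw).add ((co_Gr α y).hasSum hw)
    change ser (co α (x + y)) _ = ser (co α x) _ + ser (co α y) _
    rw [← h.tsum_eq, ser]
    apply tsum_congr
    intro n
    rw [co_add, Pi.add_apply]
    ring
  map_smul' c x := by
    funext w
    have hw : ‖(w : Fin 1 → ℂ) 0‖ < 1 := w.2
    have h := ((co_Gr α x).hasSum hw).mul_left c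
    change ser (co α (c • x)) _ = c * ser (co α x) _
    rw [← h.tsum_eq, ser]
    apply tsum_congr
    intro n
    rw [co_smul]
    ring

theorem vl_apply (x : H2) (w : Dsc) : vl α x w = ser (co α x) ((w : Fin 1 → ℂ) 0) := rfl

/-- a point of the disc -/
def pt1 (z : ℂ) (hz : ‖z‖ < 1) : Dsc := ⟨fun _ => z, hz⟩

theorem vl_inj : Function.Injective (vl α) := by
  intro x y h
  apply co_inj α
  apply ser_inj (co_Gr α x) (co_Gr α y)
  intro z hz
  exact congrFun h (pt1 z hz)

theorem vl_Sz (k : ℕ) (x : H2) (w : Dsc) :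
    vl α (Sz α k x) w = ((w : Fin 1 → ℂ) 0) ^ k * vl α x w := ser_Sz α k x w.2

theorem exists_poly (P : MvPolynomial (Fin 1) ℂ) :
    ∃ x : H2, ∀ w : Dsc, vl α x w = eval (w : Fin 1 → ℂ) P := by
  induction P using MvPolynomial.induction_on with
  | C a =>
    refine ⟨lp.single 2 0 a, fun w => ?_⟩
    rw [vl_apply, ser_single, eval_C]
    simp [uu]
  | add p q hp hq =>
    obtain ⟨x, hx⟩ := hp
    obtain ⟨y, hy⟩ := hq
    refine ⟨x + y, fun w => ?_⟩
    rw [map_add, Pi.add_apply, hx, hy, map_add]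
  | mul_X p j hp =>
    obtain ⟨x, hx⟩ := hp
    refine ⟨Sz α 1 x, fun w => ?_⟩
    rw [vl_Sz, hx, map_mul, eval_X, Subsingleton.elim j 0, pow_one, mul_comm]

/-- the elements given by polynomials -/
def PV : Submodule ℂ H2 where
  carrier := {x | ∃ P : MvPolynomial (Fin 1) ℂ, ∀ w : Dsc, vl α x w = eval (w : Fin 1 → ℂ) P}
  add_mem' := by
    rintro x y ⟨P, hP⟩ ⟨Q, hQ⟩
    refine ⟨P + Q, fun w => ?_⟩
    rw [map_add, Pi.add_apply, hP, hQ, map_add]
  zero_mem' := ⟨0, fun w => by simp⟩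
  smul_mem' := by
    rintro c x ⟨P, hP⟩
    refine ⟨MvPolynomial.C c * P, fun w => ?_⟩
    rw [map_smul, Pi.smul_apply, hP, map_mul, eval_C, smul_eq_mul]

theorem single_mem (k : ℕ) (c : ℂ) : (lp.single 2 k c : H2) ∈ PV α := by
  refine ⟨MvPolynomial.C ((uu α k : ℂ) * c) * X 0 ^ k, fun w => ?_⟩
  rw [vl_apply, ser_single]
  simp

/-- The space `D_α` of the power series with `∑ (n+1)^α |a_n|^2 < ∞`. -/
noncomputable def Dal : BSAF 1 Dsc H2 where
  val := vl α
  isOpen := isOpen_Dsc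
  inj := vl_inj α
  analytic x := by
    refine ⟨fun w => ser (co α x) (w 0), ?_, fun w => rfl⟩
    refine (ser_diff (co_Gr α x)).comp (differentiable_apply (0 : Fin 1)).differentiableOn ?_
    intro w hw
    rw [mem_ball_zero_iff]
    exact hw
  poly := exists_poly α
  dense := by
    have h : Dense (PV α : Set H2) := by
      intro x
      refine mem_closure_of_tendsto (lp.hasSum_single (p := 2) (by simp) x)
        (Eventually.of_forall fun s => ?_)
      exact Submodule.sum_mem _ fun i _ => single_mem α i _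
    exact h
  eval_bdd w := by
    have hw : ‖(w : Fin 1 → ℂ) 0‖ < 1 := w.2
    have hG : Gr (fun n => (uu α n : ℂ)) := by
      have h1 : Gr (fun _ : ℕ => (1 : ℂ)) := by
        intro ρ h0 h1
        simp only [norm_one, one_mul]
        exact summable_geometric_of_lt_one h0 h1
      apply h1.poly (KK α)
      intro n
      rw [Complex.norm_real, Real.norm_eq_abs, abs_of_pos (uu_pos α n), norm_one, mul_one]
      exact uu_le α n
    refine ⟨∑' n, ‖(uu α n : ℂ) * ((w : Fin 1 → ℂ) 0) ^ n‖, fun x => ?_⟩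
    rw [vl_apply, ser, mul_comm, ← tsum_mul_left]
    have hs := (hG.summ hw).mul_left ‖x‖
    refine tsum_of_norm_bounded hs.hasSum (fun n => ?_)
    rw [co, norm_mul, norm_mul, norm_mul]
    have := coord_le x n
    calc _ ≤ ‖(uu α n : ℂ)‖ * ‖x‖ * ‖((w : Fin 1 → ℂ) 0) ^ n‖ := by gcongr
      _ = _ := by ring
  shift j := ⟨Sz α 1, fun x w => by
    rw [vl_Sz, pow_one, Subsingleton.elim j 0]⟩

theorem Dal_val (x : H2) (w : Dsc) : (Dal α).val x w = ser (co α x) ((w : Fin 1 → ℂ) 0) := rfl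

/-- orbits are submodules -/
def OV (F : H2) : Submodule ℂ H2 where
  carrier := (Dal α).orbit F
  add_mem' := by
    rintro x y ⟨P, hP⟩ ⟨Q, hQ⟩
    refine ⟨P + Q, fun w => ?_⟩
    rw [map_add, Pi.add_apply, hP, hQ, map_add]
    ring
  zero_mem' := ⟨0, fun w => by simp⟩
  smul_mem' := by
    rintro c x ⟨P, hP⟩
    refine ⟨MvPolynomial.C c * P, fun w => ?_⟩
    rw [map_smul, Pi.smul_apply, hP, map_mul, eval_C, smul_eq_mul]
    ring

theorem Sz_mem (F : H2) (k : ℕ) (c : ℂ) : c • Sz α k F ∈ OV α F := by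
  refine Submodule.smul_mem _ _ ⟨X 0 ^ k, fun w => ?_⟩
  change vl α (Sz α k F) w = _ * vl α F w
  rw [vl_Sz]
  simp

/-- products with dilations of power series lie in the invariant subspace -/
theorem dil_mem {q : ℕ → ℂ} (hq : Gr q) (F : H2) {r : ℝ} (hr0 : 0 ≤ r) (hr1 : r < 1) :
    ∃ y : H2, y ∈ closure (OV α F : Set H2) ∧ co α y = conv (dil r q) (co α F) := by
  have hqr : Gr (dil r q) := hq.dil hr0 hr1.le
  have hG : Gr (fun n => (((n : ℝ) + 1) ^ KK α : ℝ) * q n) := by
    apply hq.poly (KK α)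
    intro n
    rw [norm_mul, Complex.norm_real, Real.norm_eq_abs, abs_of_pos (by positivity)]
  have hs : Summable fun k => ‖(dil r q k) • Sz α k F‖ := by
    have h1 := (hG r hr0 hr1).mul_right ‖F‖
    refine Summable.of_nonneg_of_le (fun k => norm_nonneg _) (fun k => ?_) h1
    rw [norm_smul, dil, norm_mul, norm_mul, norm_pow, Complex.norm_real, Complex.norm_real,
      Real.norm_eq_abs, Real.norm_eq_abs, abs_of_nonneg hr0, abs_of_pos (by positivity)]
    have h2 := (Sz α k).le_opNorm F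
    have h3 := Sz_norm α k
    calc ‖q k‖ * r ^ k * ‖Sz α k F‖ ≤ ‖q k‖ * r ^ k * (((k : ℝ) + 1) ^ KK α * ‖F‖) := by
          gcongr
          exact h2.trans (by gcongr)
      _ = _ := by ring
  have hsum := hs.of_norm.hasSum
  refine ⟨∑' k, (dil r q k) • Sz α k F, ?_, ?_⟩
  · refine mem_closure_of_tendsto hsum (Eventually.of_forall fun s => ?_)
    exact Submodule.sum_mem _ fun k _ => Sz_mem α F k _
  · apply ser_inj (co_Gr α _) (hqr.conv (co_Gr α F))
    intro z hz
    have h1 : HasSum (fun k => (Dal α).evΩ (pt1 z hz) ((dil r q k) • Sz α k F))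
        ((Dal α).evΩ (pt1 z hz) (∑' k, (dil r q k) • Sz α k F)) :=
      ((Dal α).evΩ (pt1 z hz)).hasSum hsum
    have h2 : (Dal α).evΩ (pt1 z hz) (∑' k, (dil r q k) • Sz α k F) =
        ser (co α (∑' k, (dil r q k) • Sz α k F)) z := rfl
    rw [← h2, ← h1.tsum_eq, ser_conv hqr (co_Gr α F) hz, ser, ← tsum_mul_right]
    apply tsum_congr
    intro k
    rw [map_smul, smul_eq_mul]
    change dil r q k * ser (co α (Sz α k F)) z = _
    rw [ser_Sz α k F hz]
    ring

/-- bounded sequences converging coordinatewise converge weakly -/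
theorem weak_conv (y : ℕ → H2) (G : H2) {B : ℝ} (hB : ∀ k, ‖y k‖ ≤ B)
    (hc : ∀ n, Tendsto (fun k => y k n) atTop (𝓝 (G n))) (Λ : H2 →L[ℂ] ℂ) :
    Tendsto (fun k => Λ (y k)) atTop (𝓝 (Λ G)) := by
  obtain ⟨v, hv⟩ := (InnerProductSpace.toDual ℂ H2).surjective Λ
  have hΛ : ∀ x, Λ x = inner ℂ v x := by
    intro x
    rw [← hv]
    rfl
  rw [Metric.tendsto_atTop]
  intro ε hε
  set R : ℝ := |B| + ‖G‖ + 1 with hR
  have hRpos : 0 < R := by positivity
  have hsingle := lp.hasSum_single (p := 2) (by simp) v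
  obtain ⟨s, hs⟩ := (Metric.tendsto_atTop.mp hsingle (ε / (4 * R)) (by positivity))
  have hs' := hs s le_rfl
  rw [dist_eq_norm] at hs'
  set vs : H2 := ∑ i ∈ s, lp.single 2 i (v i) with hvs
  have hin : ∀ x : H2, inner ℂ vs x = ∑ i ∈ s, inner ℂ (v i) (x i) := by
    intro x
    rw [hvs, sum_inner]
    apply Finset.sum_congr rfl
    intro i _
    exact lp.inner_single_left (𝕜 := ℂ) (G := fun _ : ℕ => ℂ) i (v i) x
  have hlim : Tendsto (fun k => inner ℂ vs (y k)) atTop (𝓝 (inner ℂ vs G)) := by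
    simp_rw [hin]
    apply tendsto_finsetSum
    intro i _
    exact (tendsto_const_nhds (x := v i)).inner (hc i)
  obtain ⟨N, hN⟩ := Metric.tendsto_atTop.mp hlim (ε / 4) (by positivity)
  refine ⟨N, fun k hk => ?_⟩
  have h1 := hN k hk
  rw [dist_eq_norm] at h1 ⊢
  have h2 : Λ (y k) - Λ G = (inner ℂ (v - vs) (y k) - inner ℂ (v - vs) G) +
      (inner ℂ vs (y k) - inner ℂ vs G) := by
    rw [hΛ, hΛ, inner_sub_left, inner_sub_left]
    ring
  rw [norm_sub_rev] at hs'
  have h3 : ‖(inner ℂ (v - vs) (y k) : ℂ)‖ ≤ ε / (4 * R) * R := by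
    refine (norm_inner_le_norm _ _).trans ?_
    gcongr
    have := hB k
    have := le_abs_self B
    have := norm_nonneg G
    linarith
  have h4 : ‖(inner ℂ (v - vs) G : ℂ)‖ ≤ ε / (4 * R) * R := by
    refine (norm_inner_le_norm _ _).trans ?_
    gcongr
    have := abs_nonneg B
    linarith
  have h5 : ε / (4 * R) * R = ε / 4 := by field_simp
  rw [h5] at h3 h4
  rw [h2]
  calc _ ≤ ‖(inner ℂ (v - vs) (y k) - inner ℂ (v - vs) G : ℂ)‖ +
        ‖(inner ℂ vs (y k) - inner ℂ vs G : ℂ)‖ := norm_add_le _ _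
    _ ≤ (‖(inner ℂ (v - vs) (y k) : ℂ)‖ + ‖(inner ℂ (v - vs) G : ℂ)‖) +
        ‖(inner ℂ vs (y k) - inner ℂ vs G : ℂ)‖ := by gcongr; exact norm_sub_le _ _
    _ < ε := by linarith

end Pool.Agent.Helper34.Da
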