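import Pool.Agent.Helper34.Da.E
import Pool.Agent.Helper34.Cq.Alg

set_option autoImplicit false
set_option linter.unusedVariables false

namespace Pool.Agent.Helper34.Da

open Filter Topology MvPolynomial
open scoped ENNReal
open Pool.Agent.Helper34.Cq

universe u

/-- radii tending to one -/
noncomputable def rk (k : ℕ) : ℝ := 1 - 1 / ((k : ℝ) + 2)

theorem rk_nonneg (k : ℕ) : 0 ≤ rk k := by
  unfold rk
  have : 1 / ((k : ℝ) + 2) ≤ 1 := by
    rw [div_le_one (by positivity)]
    have : (0 : ℝ) ≤ k := Nat.cast_nonneg k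
    linarith
  linarith

theorem rk_lt (k : ℕ) : rk k < 1 := by
  unfold rk
  have : 0 < 1 / ((k : ℝ) + 2) := by positivity
  linarith

theorem rk_lim : Tendsto rk atTop (𝓝 1) := by
  unfold rk
  have h2 := (tendsto_const_nhds (x := (1 : ℝ))).div_atTop
    (tendsto_atTop_add_const_right atTop (2 : ℝ) tendsto_natCast_atTop_atTop)
  simpa using h2.const_sub 1

theorem bOrbit_sub {α : ℝ} (hα : α < 2) (F : H2) :
    (Dal α).bOrbit F ⊆ closure ((Dal α).orbit F) := by
  intro g hg
  obtain ⟨q, hq, ⟨C, hC⟩, hgF⟩ := (Dal α).bOrbit_spec hg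
  set Q : ℂ → ℂ := fun z => q (fun _ => z) with hQd
  have hcst : Differentiable ℂ (fun z : ℂ => (fun _ : Fin 1 => z)) := by
    intro z
    rw [differentiableAt_pi]
    intro _
    exact differentiableAt_id
  have hQ : DifferentiableOn ℂ Q (Metric.ball 0 1) := by
    refine hq.comp hcst.differentiableOn ?_
    intro z hz
    rw [mem_ball_zero_iff] at hz
    exact hz
  have hC0 : 0 ≤ C := (norm_nonneg _).trans (hC (fun _ => 0) (by
    change ‖(0 : ℂ)‖ < 1
    simp))
  have hQC : ∀ z : ℂ, ‖z‖ < 1 → ‖Q z‖ ≤ C := fun z hz => hC _ hz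
  have hcg : co α g = conv (tay Q) (co α F) := by
    apply ser_inj (co_Gr α g) ((tay_Gr hQ).conv (co_Gr α F))
    intro z hz
    rw [ser_conv (tay_Gr hQ) (co_Gr α F) hz, ser_tay hQ hz]
    exact hgF (pt1 z hz)
  choose y hy1 hy2 using fun k => dil_mem α (tay_Gr hQ) F (rk_nonneg k) (rk_lt k)
  set B : ℝ := 4 * ‖g‖ ^ 2 + 24 * C ^ 2 * ‖F‖ ^ 2 with hB
  have hB0 : 0 ≤ B := by positivity
  have hbd : ∀ k, ‖y k‖ ≤ Real.sqrt B := by
    intro k
    have h1 := En_le hα (a := co α (y k)) (b := co α g) (c := co α F) (A := 4)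
      (B := 24 * C ^ 2) (co_Gr α _) (co_Gr α _) (co_Gr α _) (by norm_num) (by positivity) (by
        intro ρ h0 h1
        rw [hy2, hcg]
        exact key hQ hC0 hQC (co_Gr α F) (rk_nonneg k) (rk_lt k) h0 h1)
    rw [En_co, En_co, En_co, ← ENNReal.ofReal_mul (by norm_num),
      ← ENNReal.ofReal_mul (by positivity), ← ENNReal.ofReal_add (by positivity) (by positivity),
      ENNReal.ofReal_le_ofReal_iff hB0] at h1
    exact Real.le_sqrt_of_sq_le h1
  have hco : ∀ n, Tendsto (fun k => y k n) atTop (𝓝 (g n)) := by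
    intro n
    have h1 : Tendsto (fun k => co α (y k) n) atTop (𝓝 (co α g n)) := by
      simp_rw [hy2, hcg]
      unfold conv dil
      apply tendsto_finsetSum
      intro p _
      have h2 : Tendsto (fun k => ((rk k : ℝ) : ℂ) ^ p.1) atTop (𝓝 (1 ^ p.1)) := by
        have h3 := (Complex.continuous_ofReal.tendsto 1).comp rk_lim
        rw [Complex.ofReal_one] at h3
        exact h3.pow p.1
      rw [one_pow] at h2
      have h4 := (h2.const_mul (tay Q p.1)).mul_const (co α F p.2)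
      simpa using h4
    have h2 := h1.const_mul ((uu α n : ℂ)⁻¹)
    have e1 : ∀ x : H2, (uu α n : ℂ)⁻¹ * co α x n = x n := by
      intro x
      rw [co, ← mul_assoc, inv_mul_cancel₀ (uu_ne α n), one_mul]
    simp_rw [e1] at h2
    exact h2
  have h3 := mem_closure_of_weak (OV α F).topologicalClosure y g (fun k => hy1 k)
    (weak_conv y g hbd hco)
  have h4 : closure ((OV α F).topologicalClosure : Set H2) = closure (OV α F : Set H2) := by
    rw [Submodule.topologicalClosure_coe, closure_closure]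
  rw [h4] at h3
  exact h3

theorem hasCP_lt_two {α : ℝ} (hα : α < 2) : HasCP.{u} (Dal α) := by
  apply hasCP_of_bddCyclic
  intro F hF
  have h1 : closure ((Dal α).bOrbit F) ⊆ closure ((Dal α).orbit F) :=
    closure_minimal (bOrbit_sub hα F) isClosed_closure
  rw [hF] at h1
  exact Set.eq_univ_of_univ_subset h1

theorem young {a b : ℕ → ℂ} (ha : Gr a) (hb : Gr b) (hb1 : Summable fun n => ‖b n‖)
    (ha2 : Summable fun n => ‖a n‖ ^ 2) : Summable fun n => ‖conv b a n‖ ^ 2 := by
  set C : ℝ := ∑' n, ‖b n‖ with hC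
  have hser : ∀ z : ℂ, ‖z‖ < 1 → ‖ser b z‖ ≤ C := by
    intro z hz
    refine tsum_of_norm_bounded hb1.hasSum (fun n => ?_)
    rw [norm_mul, norm_pow]
    have h1 : ‖z‖ ^ n ≤ 1 := pow_le_one₀ (norm_nonneg _) hz.le
    have h2 := norm_nonneg (b n)
    nlinarith
  have hN2a : ∀ ρ : ℝ, 0 ≤ ρ → ρ < 1 → N2 ρ a ≤ ∑' n, ‖a n‖ ^ 2 := by
    intro ρ h0 h1
    apply (N2_summable ha h0 h1).tsum_le_tsum _ ha2
    intro n
    have h2 : ρ ^ (2 * n) ≤ 1 := pow_le_one₀ h0 h1.le
    have h3 : 0 ≤ ‖a n‖ ^ 2 := by positivity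
    nlinarith
  apply summable_of_sum_range_le (c := C ^ 2 * ∑' n, ‖a n‖ ^ 2) (fun n => by positivity)
  intro N
  have h1 : Tendsto (fun k => ∑ n ∈ Finset.range N, ‖conv b a n‖ ^ 2 * (rk k) ^ (2 * n)) atTop
      (𝓝 (∑ n ∈ Finset.range N, ‖conv b a n‖ ^ 2 * 1 ^ (2 * n))) := by
    apply tendsto_finsetSum
    intro n _
    exact (rk_lim.pow (2 * n)).const_mul _
  simp only [one_pow, mul_one] at h1
  refine le_of_tendsto h1 (Eventually.of_forall fun k => ?_)
  have h2 := (N2_summable (hb.conv ha) (rk_nonneg k) (rk_lt k)).sum_le_tsum (Finset.range N)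
    (fun n _ => by have := rk_nonneg k; positivity)
  calc _ ≤ N2 (rk k) (conv b a) := h2
    _ ≤ C ^ 2 * N2 (rk k) a := N2_conv ha hb (rk_nonneg k) (rk_lt k) (fun z hz => hser z (by
        rw [hz]; exact rk_lt k))
    _ ≤ _ := by
        gcongr
        exact hN2a _ (rk_nonneg k) (rk_lt k)

theorem conv_comm (a b : ℕ → ℂ) : conv a b = conv b a := by
  funext n
  unfold conv
  rw [← Finset.Nat.sum_antidiagonal_swap]
  apply Finset.sum_congr rfl
  intro p _
  simp [mul_comm]

theorem isAlg {α : ℝ} (hα : 1 < α) : (Dal α).IsAlg := by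
  intro F G
  have hsum1 : ∀ x : H2, Summable fun n => ‖co α x n‖ := by
    intro x
    have h1 : Summable fun n : ℕ => (1 : ℝ) / ((n : ℝ) + 1) ^ α := by
      have h2 := (summable_nat_add_iff 1).mpr (Real.summable_one_div_nat_rpow.mpr hα)
      refine h2.congr fun n => ?_
      push_cast
      rfl
    refine Summable.of_nonneg_of_le (fun n => norm_nonneg _) (fun n => ?_)
      ((h1.add (norm_sq x).summable))
    rw [co, norm_mul, Complex.norm_real, Real.norm_eq_abs, abs_of_pos (uu_pos α n)]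
    have h3 : uu α n ^ 2 = 1 / ((n : ℝ) + 1) ^ α := by
      have := uu_sq α n
      field_simp
      linarith
    rw [← h3]
    nlinarith [sq_nonneg (uu α n - ‖x n‖), sq_nonneg (uu α n), sq_nonneg (‖x n‖)]
  -- absolute values
  set ab : (ℕ → ℂ) → ℕ → ℂ := fun a n => ((‖a n‖ : ℝ) : ℂ) with hab
  have hnab : ∀ (a : ℕ → ℂ) n, ‖ab a n‖ = ‖a n‖ := by
    intro a n
    rw [hab]
    simp
  have hGrab : ∀ a : ℕ → ℂ, Gr a → Gr (ab a) := fun a ha => ha.mono fun n => (hnab a n).le
  have hGrH : ∀ x : H2, Gr (fun n => x n) := by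
    intro x
    have h1 : Gr (fun _ : ℕ => (‖x‖ : ℂ)) := by
      intro ρ h0 h1
      simp only [Complex.norm_real]
      exact (summable_geometric_of_lt_one h0 h1).mul_left _
    apply h1.mono
    intro n
    rw [Complex.norm_real, norm_norm]
    exact coord_le x n
  have hy : ∀ x x' : H2, Summable fun n => ‖conv (ab (co α x)) (ab (fun n => x' n)) n‖ ^ 2 := by
    intro x x'
    apply young (hGrab _ (hGrH x')) (hGrab _ (co_Gr α x))
    · simp_rw [hnab]
      exact hsum1 x
    · simp_rw [hnab]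
      exact (norm_sq x').summable
  set D : ℝ := 2 ^ (α / 2) with hD
  have hu : ∀ n, (uu α n)⁻¹ = ((n : ℝ) + 1) ^ (α / 2) := by
    intro n
    unfold uu
    rw [← Real.rpow_neg (by positivity)]
    congr 1
    ring
  have hmain : ∀ n, ‖(uu α n : ℂ)⁻¹ * conv (co α F) (co α G) n‖ ≤
      D * (‖conv (ab (co α G)) (ab (fun n => F n)) n‖ +
        ‖conv (ab (co α F)) (ab (fun n => G n)) n‖) := by
    intro n
    have e1 : ∀ x x' : H2, ‖conv (ab (co α x)) (ab (fun n => x' n)) n‖ =
        ∑ p ∈ Finset.HasAntidiagonal.antidiagonal n, ‖co α x p.1‖ * ‖x' p.2‖ := by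
      intro x x'
      have h1 : conv (ab (co α x)) (ab (fun n => x' n)) n =
          ((∑ p ∈ Finset.HasAntidiagonal.antidiagonal n, ‖co α x p.1‖ * ‖x' p.2‖ : ℝ) : ℂ) := by
        unfold conv
        push_cast
        rfl
      rw [h1, Complex.norm_real, Real.norm_eq_abs, abs_of_nonneg]
      exact Finset.sum_nonneg fun p _ => by positivity
    rw [e1, e1, norm_mul, norm_inv, Complex.norm_real, Real.norm_eq_abs, abs_of_pos (uu_pos α n),
      hu]
    have e2 : ∑ p ∈ Finset.HasAntidiagonal.antidiagonal n, ‖co α G p.1‖ * ‖F p.2‖ =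
        ∑ p ∈ Finset.HasAntidiagonal.antidiagonal n, ‖F p.1‖ * ‖co α G p.2‖ := by
      rw [← Finset.Nat.sum_antidiagonal_swap]
      apply Finset.sum_congr rfl
      intro p _
      simp [mul_comm]
    rw [e2, ← Finset.sum_add_distrib, Finset.mul_sum]
    calc ((n : ℝ) + 1) ^ (α / 2) * ‖conv (co α F) (co α G) n‖
        ≤ ((n : ℝ) + 1) ^ (α / 2) * ∑ p ∈ Finset.HasAntidiagonal.antidiagonal n,
            ‖co α F p.1 * co α G p.2‖ := by
          gcongr
          exact norm_sum_le _ _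
      _ = ∑ p ∈ Finset.HasAntidiagonal.antidiagonal n,
            ((n : ℝ) + 1) ^ (α / 2) * (‖co α F p.1‖ * ‖co α G p.2‖) := by
          rw [Finset.mul_sum]
          simp only [norm_mul]
      _ ≤ _ := by
          apply Finset.sum_le_sum
          intro p hp
          have hpn := Finset.HasAntidiagonal.mem_antidiagonal.mp hp
          have hF : ‖F p.1‖ = ((p.1 : ℝ) + 1) ^ (α / 2) * ‖co α F p.1‖ := by
            rw [co, norm_mul, Complex.norm_real, Real.norm_eq_abs, abs_of_pos (uu_pos α _),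
              ← hu, ← mul_assoc, inv_mul_cancel₀ (uu_pos α _).ne', one_mul]
          have hG : ‖G p.2‖ = ((p.2 : ℝ) + 1) ^ (α / 2) * ‖co α G p.2‖ := by
            rw [co, norm_mul, Complex.norm_real, Real.norm_eq_abs, abs_of_pos (uu_pos α _),
              ← hu, ← mul_assoc, inv_mul_cancel₀ (uu_pos α _).ne', one_mul]
          rw [hF, hG]
          have h5 : ((n : ℝ) + 1) ^ (α / 2) ≤
              D * (((p.1 : ℝ) + 1) ^ (α / 2) + ((p.2 : ℝ) + 1) ^ (α / 2)) := by
            have h6 : (n : ℝ) = p.1 + p.2 := by exact_mod_cast hpn.symm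
            have hp1 : (0 : ℝ) ≤ p.1 := Nat.cast_nonneg _
            have hp2 : (0 : ℝ) ≤ p.2 := Nat.cast_nonneg _
            have a1 : 0 ≤ ((p.1 : ℝ) + 1) ^ (α / 2) := by positivity
            have a2 : 0 ≤ ((p.2 : ℝ) + 1) ^ (α / 2) := by positivity
            have a3 : 0 ≤ D := by positivity
            rcases le_total (p.1 : ℝ) p.2 with h7 | h7
            · calc ((n : ℝ) + 1) ^ (α / 2) ≤ (2 * ((p.2 : ℝ) + 1)) ^ (α / 2) := by
                    apply Real.rpow_le_rpow (by positivity) (by linarith) (by linarith)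
                _ = D * ((p.2 : ℝ) + 1) ^ (α / 2) := by
                    rw [Real.mul_rpow (by norm_num) (by positivity)]
                _ ≤ _ := by nlinarith [mul_nonneg a3 a1]
            · calc ((n : ℝ) + 1) ^ (α / 2) ≤ (2 * ((p.1 : ℝ) + 1)) ^ (α / 2) := by
                    apply Real.rpow_le_rpow (by positivity) (by linarith) (by linarith)
                _ = D * ((p.1 : ℝ) + 1) ^ (α / 2) := by
                    rw [Real.mul_rpow (by norm_num) (by positivity)]
                _ ≤ _ := by nlinarith [mul_nonneg a3 a2]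
          calc _ ≤ D * (((p.1 : ℝ) + 1) ^ (α / 2) + ((p.2 : ℝ) + 1) ^ (α / 2)) *
                (‖co α F p.1‖ * ‖co α G p.2‖) := by gcongr
            _ = _ := by ring
  have hsq : Summable fun n => ‖(uu α n : ℂ)⁻¹ * conv (co α F) (co α G) n‖ ^ 2 := by
    refine Summable.of_nonneg_of_le (fun n => by positivity) (fun n => ?_)
      (((hy G F).add (hy F G)).mul_left (2 * D ^ 2))
    have h1 := hmain n
    have h2 : 0 ≤ ‖(uu α n : ℂ)⁻¹ * conv (co α F) (co α G) n‖ := norm_nonneg _
    calc _ ≤ (D * (‖conv (ab (co α G)) (ab (fun n => F n)) n‖ +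
        ‖conv (ab (co α F)) (ab (fun n => G n)) n‖)) ^ 2 := by gcongr
      _ ≤ _ := by nlinarith [mul_nonneg (sq_nonneg D) (sq_nonneg
          (‖conv (ab (co α G)) (ab (fun n => F n)) n‖ -
            ‖conv (ab (co α F)) (ab (fun n => G n)) n‖))]
  refine ⟨⟨fun n => (uu α n : ℂ)⁻¹ * conv (co α F) (co α G) n, mem2 hsq⟩, fun w => ?_⟩
  rw [Dal_val, Dal_val, Dal_val, ← ser_conv (co_Gr α F) (co_Gr α G) w.2]
  congr 1
  funext n
  change (uu α n : ℂ) * ((uu α n : ℂ)⁻¹ * conv (co α F) (co α G) n) = _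
  rw [← mul_assoc, mul_inv_cancel₀ (uu_ne α n), one_mul]

theorem co_norm (α : ℝ) (x : H2) :
    HasSum (fun n : ℕ => ((n : ℝ) + 1) ^ α * ‖co α x n‖ ^ 2) (‖x‖ ^ 2) := by
  refine (norm_sq x).congr_fun fun n => ?_
  rw [co, norm_mul, Complex.norm_real, Real.norm_eq_abs, abs_of_pos (uu_pos α n), mul_pow,
    ← mul_assoc, uu_sq, one_mul]

theorem exists_co (α : ℝ) (a : ℕ → ℂ) (ha : Summable fun n : ℕ => ((n : ℝ) + 1) ^ α * ‖a n‖ ^ 2) :
    ∃ x : H2, co α x = a := by
  have h1 : Summable fun n => ‖(uu α n : ℂ)⁻¹ * a n‖ ^ 2 := by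
    refine ha.congr fun n => ?_
    rw [norm_mul, norm_inv, Complex.norm_real, Real.norm_eq_abs, abs_of_pos (uu_pos α n), mul_pow]
    congr 1
    have h2 := uu_sq α n
    have h3 := uu_pos α n
    rw [inv_pow]
    exact eq_inv_of_mul_eq_one_left h2
  refine ⟨⟨fun n => (uu α n : ℂ)⁻¹ * a n, mem2 h1⟩, ?_⟩
  funext n
  change (uu α n : ℂ) * ((uu α n : ℂ)⁻¹ * a n) = a n
  rw [← mul_assoc, mul_inv_cancel₀ (uu_ne α n), one_mul]

/-- Every space `D_α` has property (CP). -/
theorem hasCP_Dal (α : ℝ) : HasCP.{u} (Dal α) := by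
  rcases lt_or_ge α 2 with h | h
  · exact hasCP_lt_two h
  · exact hasCP_of_alg _ (isAlg (by linarith))

end Pool.Agent.Helper34.Da
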